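import Pool.Agent.W254.LF.Stm4

/-!
# The confluent Cauchy determinant (LF4-CCAU)
-/

set_option autoImplicit false

open Polynomial

namespace Pool.Agent.W251.LF

section Field

variable {k : Type*} [Field k] {m : ℕ}

/-- truncated expansion of `1/(X - a)` at `x` -/
noncomputable def TT (x a : k) (e : ℕ) : k[X] :=
  ∑ l ∈ Finset.range e, C (((x - a)⁻¹) ^ (l + 1)) * (-(X - C x)) ^ l

theorem TT_mul (x a : k) (h : x - a ≠ 0) (e : ℕ) :
    (X - C a) * TT x a e = 1 - (-(X - C x) * C ((x - a)⁻¹)) ^ e := by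
  induction e with
  | zero => simp [TT]
  | succ e ih =>
    have h1 : TT x a (e + 1) = TT x a e + C (((x - a)⁻¹) ^ (e + 1)) * (-(X - C x)) ^ e := by
      unfold TT
      rw [Finset.sum_range_succ]
    have h2 : (X - C a : k[X]) = (X - C x) + C (x - a) := by
      rw [C_sub]; ring
    have h3 : C (x - a) * C ((x - a)⁻¹) = (1 : k[X]) := by
      rw [← C_mul, mul_inv_cancel₀ h, C_1]
    rw [h1, mul_add, ih, h2, C_pow]
    have h4 : ((X - C x) + C (x - a)) * (C ((x - a)⁻¹) ^ (e + 1) * (-(X - C x)) ^ e) =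
        (C (x - a) * C ((x - a)⁻¹)) * (-(X - C x) * C ((x - a)⁻¹)) ^ e
          - (-(X - C x) * C ((x - a)⁻¹)) ^ (e + 1) := by
      rw [mul_pow, mul_pow]; ring
    rw [h4, h3]
    ring

theorem main (q : ℕ) (x : Fin q → k) (a : Fin m → k) (e : Fin q → ℕ)
    (hm : ∑ c, e c = m) (hx : Function.Injective x) (ha : Function.Injective a)
    (hxa : ∀ c i, x c - a i ≠ 0) (r : Fin m → k)
    (hr : ∀ c, ∀ l < e c, ∑ i, r i * ((x c - a i)⁻¹) ^ (l + 1) = 0) : r = 0 := by
  classical
  set D : Fin m → k[X] := fun i => ∏ l ∈ Finset.univ.erase i, (X - C (a l)) with hD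
  set Q : k[X] := ∑ i, C (r i) * D i with hQ
  have hDi : ∀ i, (X - C (a i)) * D i = ∏ l, (X - C (a l)) := by
    intro i
    exact Finset.mul_prod_erase Finset.univ (fun l => (X - C (a l) : k[X])) (Finset.mem_univ i)
  have hdeg : Q.degree < m := by
    refine mem_degreeLT.mp (Submodule.sum_mem _ fun i _ => mem_degreeLT.mpr ?_)
    rw [C_mul']
    refine lt_of_le_of_lt (degree_smul_le _ _) ?_
    have h1 : (D i).natDegree < m := by
      rw [hD]
      simp only
      rw [natDegree_prod_of_monic _ _ fun l _ => monic_X_sub_C _]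
      simp only [natDegree_X_sub_C, Finset.sum_const, smul_eq_mul, mul_one]
      rw [Finset.card_erase_of_mem (Finset.mem_univ i), Finset.card_univ, Fintype.card_fin]
      have := i.pos
      omega
    exact lt_of_le_of_lt degree_le_natDegree (by exact_mod_cast h1)
  have hdvd : ∀ c, (X - C (x c)) ^ (e c) ∣ Q := by
    intro c
    -- `Q ≡ D ∑ r_i T_i = 0`
    have h1 : ∀ i, (X - C (x c)) ^ (e c) ∣ D i - (∏ l, (X - C (a l))) * TT (x c) (a i) (e c) := by
      intro i
      rw [← hDi i]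
      have h2 : D i - (X - C (a i)) * D i * TT (x c) (a i) (e c) =
          D i * (1 - (X - C (a i)) * TT (x c) (a i) (e c)) := by ring
      rw [h2, TT_mul _ _ (hxa c i), sub_sub_cancel, mul_pow, neg_pow]
      refine Dvd.dvd.mul_left ?_ _
      refine Dvd.dvd.mul_right ?_ _
      exact Dvd.dvd.mul_left dvd_rfl _
    have h3 : Q = ∑ i, C (r i) * (D i - (∏ l, (X - C (a l))) * TT (x c) (a i) (e c)) := by
      have h4 : ∑ i, C (r i) * ((∏ l, (X - C (a l))) * TT (x c) (a i) (e c)) = 0 := by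
        have h5 : ∀ i, C (r i) * ((∏ l, (X - C (a l))) * TT (x c) (a i) (e c)) =
            (∏ l, (X - C (a l))) * ∑ l ∈ Finset.range (e c),
              C (r i * ((x c - a i)⁻¹) ^ (l + 1)) * (-(X - C (x c))) ^ l := by
          intro i
          unfold TT
          rw [mul_left_comm, Finset.mul_sum]
          congr 1
          refine Finset.sum_congr rfl fun l _ => ?_
          rw [C_mul]; ring
        simp_rw [h5]
        rw [← Finset.mul_sum, Finset.sum_comm]
        rw [Finset.sum_eq_zero, mul_zero]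
        intro l hl
        rw [← Finset.sum_mul, ← map_sum, hr c l (Finset.mem_range.mp hl), C_0, zero_mul]
      simp_rw [mul_sub]
      rw [Finset.sum_sub_distrib, h4, sub_zero]
    rw [h3]
    exact Finset.dvd_sum fun i _ => Dvd.dvd.mul_left (h1 i) _
  have hprod : (∏ c, (X - C (x c)) ^ (e c)) ∣ Q := by
    refine Finset.prod_dvd_of_coprime ?_ fun c _ => hdvd c
    intro c _ c' _ hcc
    exact IsCoprime.pow (pairwise_coprime_X_sub_C hx hcc)
  have hQ0 : Q = 0 := by
    refine eq_zero_of_dvd_of_degree_lt hprod ?_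
    have h6 : (∏ c, (X - C (x c)) ^ (e c)).degree = (m : WithBot ℕ) := by
      rw [degree_prod, ← hm]
      simp only [degree_pow, degree_X_sub_C, nsmul_eq_mul, mul_one, Nat.cast_sum]
    rw [h6]
    exact hdeg
  funext i
  have h7 : Q.eval (a i) = r i * ∏ l ∈ Finset.univ.erase i, (a i - a l) := by
    rw [hQ, eval_finsetSum, Finset.sum_eq_single i]
    · simp [hD, eval_prod]
    · intro b _ hb
      have h8 : (D b).eval (a i) = 0 := by
        simp only [hD, eval_prod]
        exact Finset.prod_eq_zero (Finset.mem_erase.mpr ⟨Ne.symm hb, Finset.mem_univ i⟩) (by simp)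
      rw [eval_mul, h8, mul_zero]
    · intro h; exact absurd (Finset.mem_univ i) h
  rw [hQ0, eval_zero] at h7
  have h9 : ∏ l ∈ Finset.univ.erase i, (a i - a l) ≠ 0 := by
    rw [Finset.prod_ne_zero_iff]
    intro l hl h
    exact (Finset.mem_erase.mp hl).1 (ha (sub_eq_zero.mp h)).symm
  exact (mul_eq_zero.mp h7.symm).resolve_right h9

theorem det_ne (q : ℕ) (x : Fin q → k) (a : Fin m → k) (e : Fin q → ℕ)
    (φ : Fin m ≃ Σ c : Fin q, Fin (e c)) (hx : Function.Injective x) (ha : Function.Injective a)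
    (hxa : ∀ c i, x c - a i ≠ 0) :
    (Matrix.of fun i j : Fin m => ((x (φ j).1 - a i)⁻¹) ^ (((φ j).2 : ℕ) + 1)).det ≠ 0 := by
  intro h
  obtain ⟨v, hv, hv0⟩ := Matrix.exists_vecMul_eq_zero_iff.mpr h
  apply hv
  refine main q x a e ?_ hx ha hxa v ?_
  · have := Fintype.card_congr φ
    rw [Fintype.card_fin, Fintype.card_sigma] at this
    simpa using this.symm
  · intro c l hl
    have h1 := congrFun hv0 (φ.symm ⟨c, ⟨l, hl⟩⟩)
    simp only [Matrix.vecMul, dotProduct, Matrix.of_apply, Pi.zero_apply] at h1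
    rw [Equiv.apply_symm_apply] at h1
    exact h1

end Field

section Norm

variable {K : Type*} [NontriviallyNormedField K] [IsUltrametricDist K] {m : ℕ}

theorem norm_ccau (q : ℕ) (x : Fin q → K) (a : Fin m → K) (e : Fin q → ℕ)
    (φ : Fin m ≃ Σ c : Fin q, Fin (e c)) (h0 : ∀ i, ‖a i‖ ≤ 1) (hxa : ∀ c i, ‖x c - a i‖ = 1)
    (hx : ∀ c c', c ≠ c' → ‖x c - x c'‖ = 1) (ha : ∀ i j, i ≠ j → ‖a i - a j‖ = 1) :
    ‖(Matrix.of fun i j : Fin m => ((x (φ j).1 - a i)⁻¹) ^ (((φ j).2 : ℕ) + 1)).det‖ = 1 := by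
  rcases Nat.eq_zero_or_pos m with hm | hm
  · subst hm
    simp
  set v := NormedField.valuation (K := K) with hv
  set A := v.valuationSubring with hA
  have hmem : ∀ y : K, y ∈ A ↔ ‖y‖ ≤ 1 := by
    intro y
    rw [hA, Valuation.mem_valuationSubring_iff, hv, NormedField.valuation_apply]
    exact Iff.rfl
  have hx1 : ∀ c, ‖x c‖ ≤ 1 := by
    intro c
    have h1 : x c = (x c - a ⟨0, hm⟩) + a ⟨0, hm⟩ := by ring
    rw [h1]
    refine (IsUltrametricDist.norm_add_le_max _ _).trans ?_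
    exact max_le (hxa c _).le (h0 _)
  let X' : Fin q → A := fun c => ⟨x c, (hmem _).mpr (hx1 c)⟩
  let a' : Fin m → A := fun i => ⟨a i, (hmem _).mpr (h0 i)⟩
  have hunit : ∀ y : A, IsUnit y ↔ ‖(y : K)‖ = 1 := by
    intro y
    constructor
    · intro h
      obtain ⟨u, rfl⟩ := h
      have h1 : ‖((u : A) : K)‖ ≤ 1 := (hmem _).mp (u : A).2
      have h2 : ‖((u⁻¹ : Aˣ) : A).1‖ ≤ 1 := (hmem _).mp ((u⁻¹ : Aˣ) : A).2
      have h3 : ((u : A) : K) * (((u⁻¹ : Aˣ) : A) : K) = 1 := by
        exact congrArg (Subtype.val) u.mul_inv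
      have h4 : ‖((u : A) : K)‖ * ‖(((u⁻¹ : Aˣ) : A) : K)‖ = 1 := by
        rw [← norm_mul, h3, norm_one]
      nlinarith [norm_nonneg ((u : A) : K), norm_nonneg (((u⁻¹ : Aˣ) : A) : K)]
    · intro h
      have h1 : (y : K) ≠ 0 := by
        intro h2; rw [h2, norm_zero] at h; exact zero_ne_one h
      have h3 : ‖(y : K)⁻¹‖ ≤ 1 := by rw [norm_inv, h, inv_one]
      exact IsUnit.of_mul_eq_one ⟨(y : K)⁻¹, (hmem _).mpr h3⟩ (Subtype.ext (mul_inv_cancel₀ h1))
  let res := IsLocalRing.residue A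
  have hres : ∀ y : A, res y ≠ 0 ↔ ‖(y : K)‖ = 1 := by
    intro y
    rw [← hunit, IsLocalRing.residue_ne_zero_iff_isUnit]
  -- inverses
  let iv : Fin q → Fin m → A := fun c i => ⟨(x c - a i)⁻¹, (hmem _).mpr (by
    rw [norm_inv, hxa, inv_one])⟩
  have hiv : ∀ c i, res (iv c i) = (res (X' c) - res (a' i))⁻¹ := by
    intro c i
    have h1 : (X' c - a' i) * iv c i = 1 := by
      apply Subtype.ext
      show (x c - a i) * (x c - a i)⁻¹ = 1
      refine mul_inv_cancel₀ fun h => ?_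
      have := hxa c i
      rw [h, norm_zero] at this
      exact zero_ne_one this
    have h2 := congrArg res h1
    rw [map_mul, map_sub, map_one] at h2
    exact (inv_eq_of_mul_eq_one_right h2).symm
  set M : Matrix (Fin m) (Fin m) A :=
    Matrix.of fun i j => (iv (φ j).1 i) ^ (((φ j).2 : ℕ) + 1) with hM
  have h5 : ((M.det : A) : K) =
      (Matrix.of fun i j : Fin m => ((x (φ j).1 - a i)⁻¹) ^ (((φ j).2 : ℕ) + 1)).det := by
    have h6 := RingHom.map_det A.subtype M
    have h7 : A.subtype M.det = ((M.det : A) : K) := rfl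
    rw [← h7, h6]
    rfl
  rw [← h5, ← hres]
  have h8 : res M.det = (Matrix.of fun i j : Fin m =>
      ((res (X' (φ j).1) - res (a' i))⁻¹) ^ (((φ j).2 : ℕ) + 1)).det := by
    rw [RingHom.map_det]
    congr 1
    ext i j
    simp only [RingHom.mapMatrix_apply, Matrix.map_apply, hM, Matrix.of_apply, map_pow, hiv]
  rw [h8]
  refine det_ne q (fun c => res (X' c)) (fun i => res (a' i)) e φ ?_ ?_ ?_
  · intro c c' h
    by_contra hne
    have h9 := (hres (X' c - X' c')).mpr (hx c c' hne)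
    rw [map_sub] at h9
    exact h9 (sub_eq_zero.mpr h)
  · intro i j h
    by_contra hne
    have h9 := (hres (a' i - a' j)).mpr (ha i j hne)
    rw [map_sub] at h9
    exact h9 (sub_eq_zero.mpr h)
  · intro c i
    have h9 := (hres (X' c - a' i)).mpr (hxa c i)
    rwa [map_sub] at h9

end Norm

theorem t_CCAU : Pool.Agent.W254.LF.S_CCAU := by
  intro p _ m q x α e φ h0 hxa hx ha
  exact norm_ccau q x α e φ h0 hxa hx ha

end Pool.Agent.W251.LF
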